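import Pool.Agent.Helper40_VR.Combine

set_option autoImplicit false

/-!
# MP_cf6741_gt, Q1: disproof

Reduced homology in degree 15 of the Vietoris-Rips complexes at scale 8 of the lattice `ℤ^10` and
of the cube `{0,1}^10`: the first is nonzero, the second is zero.

The class in the lattice: the 16 words `y` of the Hamming code of length 7 are put at heights
`x(y) ∈ {0,2}^3`, constant on complementary pairs and such that no two heights are opposite; they
form a maximal simplex `σ` at scale 8. Together with the 16 points `(1,1,1,y)`, `y` in the code,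
they are the vertices of an induced cross-polytope, whose fundamental cycle has coefficient `±1`
at the facet `σ`. The cube: every 32 vertices have a common neighbour, so Meshulam's lemma applies.
-/

namespace Pool.Agent.Results.MP_cf6741_gt.LatticeVersusCube

open Finset Pool.Agent.Helper40_VR

/-- The Manhattan metric on `ℤ^n`. -/
def manhattan {n : ℕ} (x y : Fin n → ℤ) : ℤ := ∑ i, |x i - y i|

/-- The Vietoris-Rips complex at scale `r` of a subset `X` of `ℤ^n` with the Manhattan metric:
the faces are the nonempty finite subsets of `X` of diameter at most `r`. -/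
def VietorisRips {n : ℕ} (X : Set (Fin n → ℤ)) (r : ℝ) :
    PreAbstractSimplicialComplex (Fin n → ℤ) where
  faces := {σ | σ.Nonempty ∧ (∀ x ∈ σ, x ∈ X) ∧ ∀ x ∈ σ, ∀ y ∈ σ, (manhattan x y : ℝ) ≤ r}
  isRelLowerSet_faces := by
    rintro σ ⟨h1, h2, h3⟩
    refine ⟨h1, ?_⟩
    intro τ hτ hne
    exact ⟨hne, fun x hx => h2 x (hτ hx), fun x hx y hy => h3 x (hτ hx) y (hτ hy)⟩

/-- The vertex set `{0,1}^n` of the unit cube. -/
def cube (n : ℕ) : Set (Fin n → ℤ) := {x | ∀ i, x i = 0 ∨ x i = 1}

/-! ### The finite data -/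

/-- The distance of two lists of natural numbers. -/
def ldist : List ℕ → List ℕ → ℕ
  | x :: xs, y :: ys => ((x - y) + (y - x)) + ldist xs ys
  | _, _ => 0

/-- The 16 vertices of the maximal simplex and their opposite vertices. -/
def words : List (List ℕ × List ℕ) :=
  [([0, 0, 0, 0, 0, 0, 0, 0, 0, 0], [1, 1, 1, 1, 1, 1, 1, 1, 1, 1]),
   ([0, 2, 2, 0, 0, 0, 1, 1, 1, 1], [1, 1, 1, 1, 1, 1, 0, 0, 0, 0]),
   ([2, 0, 2, 0, 0, 1, 0, 1, 1, 0], [1, 1, 1, 1, 1, 0, 1, 0, 0, 1]),
   ([2, 2, 0, 0, 0, 1, 1, 0, 0, 1], [1, 1, 1, 1, 1, 0, 0, 1, 1, 0]),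
   ([0, 0, 0, 0, 1, 0, 0, 1, 0, 1], [1, 1, 1, 1, 0, 1, 1, 0, 1, 0]),
   ([2, 2, 0, 0, 1, 0, 1, 0, 1, 0], [1, 1, 1, 1, 0, 1, 0, 1, 0, 1]),
   ([0, 2, 2, 0, 1, 1, 0, 0, 1, 1], [1, 1, 1, 1, 0, 0, 1, 1, 0, 0]),
   ([2, 0, 2, 0, 1, 1, 1, 1, 0, 0], [1, 1, 1, 1, 0, 0, 0, 0, 1, 1]),
   ([2, 0, 2, 1, 0, 0, 0, 0, 1, 1], [1, 1, 1, 0, 1, 1, 1, 1, 0, 0]),
   ([0, 2, 2, 1, 0, 0, 1, 1, 0, 0], [1, 1, 1, 0, 1, 1, 0, 0, 1, 1]),
   ([2, 2, 0, 1, 0, 1, 0, 1, 0, 1], [1, 1, 1, 0, 1, 0, 1, 0, 1, 0]),
   ([0, 0, 0, 1, 0, 1, 1, 0, 1, 0], [1, 1, 1, 0, 1, 0, 0, 1, 0, 1]),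
   ([2, 2, 0, 1, 1, 0, 0, 1, 1, 0], [1, 1, 1, 0, 0, 1, 1, 0, 0, 1]),
   ([2, 0, 2, 1, 1, 0, 1, 0, 0, 1], [1, 1, 1, 0, 0, 1, 0, 1, 1, 0]),
   ([0, 2, 2, 1, 1, 1, 0, 0, 0, 0], [1, 1, 1, 0, 0, 0, 1, 1, 1, 1]),
   ([0, 0, 0, 1, 1, 1, 1, 1, 1, 1], [1, 1, 1, 0, 0, 0, 0, 0, 0, 0])]

/-- Sides of the box. -/
def sides : List ℕ := [2, 2, 2, 1, 1, 1, 1, 1, 1, 1]

/-- One step of the distance computation. -/
def step (x : ℕ) (st : ℕ × List ℕ) : ℕ × List ℕ :=
  match st.2 with
  | [] => st
  | y :: ys => (st.1 + ((x - y) + (y - x)), ys)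

/-- Some distance is at least 9, or some distance is 0 and some distance is 8. -/
def leafOK (ds : List ℕ) : Bool :=
  ds.any (fun d => decide (9 ≤ d)) || (ds.any (fun d => d == 0) && ds.any (fun d => d == 8))

/-- Exhaustive search over a box. -/
def go : List ℕ → List (ℕ × List ℕ) → Bool
  | [], sts => leafOK (sts.map Prod.fst)
  | h :: hs, sts => (List.range (h + 1)).all (fun x => go hs (sts.map (step x)))

theorem ldist_nil (c : List ℕ) : ldist c [] = 0 := by
  cases c <;> rfl

theorem step_ldist (x : ℕ) (c : List ℕ) (st : ℕ × List ℕ) :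
    (step x st).1 + ldist c (step x st).2 = st.1 + ldist (x :: c) st.2 := by
  rcases st with ⟨d, l⟩
  cases l with
  | nil => simp [step, ldist_nil]
  | cons y ys => simp [step, ldist, add_assoc]

theorem go_spec : ∀ (hs : List ℕ) (sts : List (ℕ × List ℕ)), go hs sts = true →
    ∀ c : List ℕ, List.Forall₂ (· ≤ ·) c hs →
      leafOK (sts.map (fun st => st.1 + ldist c st.2)) = true := by
  intro hs
  induction hs with
  | nil =>
    intro sts h c hc
    cases hc
    simp only [go] at h
    rw [← h]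
    congr 1
  | cons h0 hs ih =>
    intro sts h c hc
    cases hc with
    | cons hx hc' =>
      rename_i x c'
      simp only [go, List.all_eq_true, List.mem_range] at h
      have := ih _ (h x (by omega)) c' hc'
      rw [List.map_map] at this
      rw [← this]
      congr 1
      refine List.map_congr_left fun st _ => ?_
      exact (step_ldist x c' st).symm

set_option maxRecDepth 100000 in
theorem go_words : go sides (words.map (fun p => (0, p.1))) = true := by
  decide +kernel

/-- All words have length 10, vertices in the box. -/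
theorem words_length : ∀ p ∈ words, p.1.length = 10 ∧ p.2.length = 10 ∧
    List.Forall₂ (· ≤ ·) p.1 sides := by
  decide +kernel

/-- Distances between the vertices of different pairs. -/
theorem words_pairwise : words.Pairwise (fun p q =>
    ((0 < ldist p.1 q.1 ∧ ldist p.1 q.1 ≤ 8) ∧ (0 < ldist p.1 q.2 ∧ ldist p.1 q.2 ≤ 8)) ∧
    ((0 < ldist p.2 q.1 ∧ ldist p.2 q.1 ≤ 8) ∧ (0 < ldist p.2 q.2 ∧ ldist p.2 q.2 ≤ 8))) := by
  decide +kernel

theorem words_opp : ∀ p ∈ words, 0 < ldist p.1 p.2 := by
  decide +kernel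

/-! ### From lists to points -/

/-- The point of `ℤ^10` given by a list. -/
def pt (l : List ℕ) : Fin 10 → ℤ := fun i => ((l.getD i 0 : ℕ) : ℤ)

theorem abs_sub_nat (a b : ℕ) : |(a : ℤ) - b| = (((a - b) + (b - a) : ℕ) : ℤ) := by
  rcases le_total a b with h | h
  · rw [abs_of_nonpos (by omega)]; omega
  · rw [abs_of_nonneg (by omega)]; omega

theorem sum_getD (n : ℕ) : ∀ l l' : List ℕ, l.length = n → l'.length = n →
    ∑ i : Fin n, |((l.getD i 0 : ℕ) : ℤ) - ((l'.getD i 0 : ℕ) : ℤ)| = (ldist l l' : ℤ) := by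
  induction n with
  | zero =>
    intro l l' h h'
    rw [List.length_eq_zero_iff] at h h'
    subst h h'
    simp [ldist]
  | succ n ih =>
    intro l l' h h'
    cases l with
    | nil => simp at h
    | cons x xs =>
      cases l' with
      | nil => simp at h'
      | cons y ys =>
        rw [Fin.sum_univ_succ]
        simp only [Fin.val_zero, List.getD_cons_zero, Fin.val_succ, List.getD_cons_succ]
        rw [ih xs ys (by simpa using h) (by simpa using h'), abs_sub_nat]
        simp only [ldist]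
        push_cast
        ring

theorem manhattan_pt {l l' : List ℕ} (h : l.length = 10) (h' : l'.length = 10) :
    manhattan (pt l) (pt l') = (ldist l l' : ℤ) := sum_getD 10 l l' h h'

theorem manhattan_nonneg {n : ℕ} (x y : Fin n → ℤ) : 0 ≤ manhattan x y :=
  Finset.sum_nonneg fun _ _ => abs_nonneg _

theorem manhattan_comm {n : ℕ} (x y : Fin n → ℤ) : manhattan x y = manhattan y x := by
  unfold manhattan
  exact Finset.sum_congr rfl fun i _ => abs_sub_comm _ _

theorem manhattan_self {n : ℕ} (x : Fin n → ℤ) : manhattan x x = 0 := by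
  unfold manhattan; simp

theorem eq_of_manhattan {n : ℕ} {x y : Fin n → ℤ} (h : manhattan x y = 0) : x = y := by
  unfold manhattan at h
  rw [Finset.sum_eq_zero_iff_of_nonneg fun _ _ => abs_nonneg _] at h
  funext i
  have := h i (mem_univ i)
  rw [abs_eq_zero] at this
  omega

theorem pt_ne {l l' : List ℕ} (h : l.length = 10) (h' : l'.length = 10) (hd : 0 < ldist l l') :
    pt l ≠ pt l' := by
  intro he
  have h1 := manhattan_pt h h'
  rw [he, manhattan_self] at h1
  omega

/-- The sides of the box as a function. -/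
def side (i : Fin 10) : ℕ := sides.getD i 0

/-- The nearest point of the box. -/
def clampList (w : Fin 10 → ℤ) : List ℕ :=
  List.ofFn fun i : Fin 10 => (max 0 (min (w i) (side i))).toNat

theorem clampList_length (w : Fin 10 → ℤ) : (clampList w).length = 10 := by
  simp [clampList]

theorem pt_clampList (w : Fin 10 → ℤ) (i : Fin 10) :
    pt (clampList w) i = max 0 (min (w i) (side i)) := by
  unfold pt clampList
  rw [List.getD_eq_getElem?_getD, List.getElem?_ofFn]
  simp

theorem clampList_le (w : Fin 10 → ℤ) : List.Forall₂ (· ≤ ·) (clampList w) sides := by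
  rw [List.forall₂_iff_get]
  refine ⟨by rw [clampList_length]; rfl, ?_⟩
  intro i h1 h2
  have h10 : i < 10 := by rw [clampList_length] at h1; exact h1
  have h3 : (clampList w).get ⟨i, h1⟩ = (max 0 (min (w ⟨i, h10⟩) (side ⟨i, h10⟩))).toNat := by
    rw [List.get_eq_getElem]
    unfold clampList
    rw [List.getElem_ofFn]
  have h4 : sides.get ⟨i, h2⟩ = side ⟨i, h10⟩ := by
    unfold side
    rw [List.getD_eq_getElem _ _ h2]
    rfl
  rw [h3, h4]
  omega

/-- The distance of an arbitrary point to a point of the box. -/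
theorem manhattan_clamp (w : Fin 10 → ℤ) {s : List ℕ} (hs : s.length = 10)
    (hle : List.Forall₂ (· ≤ ·) s sides) :
    manhattan w (pt s) = manhattan w (pt (clampList w)) + (ldist (clampList w) s : ℤ) := by
  rw [← manhattan_pt (clampList_length w) hs]
  unfold manhattan
  rw [← Finset.sum_add_distrib]
  refine Finset.sum_congr rfl fun i _ => ?_
  rw [pt_clampList]
  have h1 : pt s i ≤ side i := by
    rw [List.forall₂_iff_get] at hle
    have h2 := hle.2 i (by rw [hs]; exact i.2) i.2
    unfold pt side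
    rw [List.getD_eq_getElem _ _ (by rw [hs]; exact i.2), List.getD_eq_getElem _ _ (by exact i.2)]
    exact_mod_cast h2
  have h0 : 0 ≤ pt s i := by unfold pt; positivity
  rcases le_total (w i) 0 with h | h
  · have hm : max 0 (min (w i) (side i)) = 0 := by
      rw [max_eq_left]; exact (min_le_left _ _).trans h
    rw [hm, abs_of_nonpos (by omega : w i - pt s i ≤ 0), abs_of_nonpos (by omega : w i - 0 ≤ 0),
      abs_of_nonpos (by omega : 0 - pt s i ≤ 0)]
    ring
  · rcases le_total (w i) (side i) with h' | h'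
    · have hm : max 0 (min (w i) (side i)) = w i := by
        rw [min_eq_left h', max_eq_right h]
      rw [hm]; simp
    · have hm : max 0 (min (w i) (side i)) = (side i : ℤ) := by
        rw [min_eq_right h', max_eq_right (by positivity)]
      rw [hm, abs_of_nonneg (by omega : 0 ≤ w i - pt s i),
        abs_of_nonneg (by omega : 0 ≤ w i - (side i : ℤ)),
        abs_of_nonneg (by omega : 0 ≤ (side i : ℤ) - pt s i)]
      ring

/-- Maximality of the simplex. -/
theorem maximal (w : Fin 10 → ℤ) (h : ∀ p ∈ words, manhattan w (pt p.1) ≤ 8) :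
    ∃ p ∈ words, w = pt p.1 := by
  have h1 := go_spec sides _ go_words (clampList w) (clampList_le w)
  have h2 : ∀ p ∈ words, manhattan w (pt p.1) =
      manhattan w (pt (clampList w)) + (ldist (clampList w) p.1 : ℤ) := fun p hp =>
    manhattan_clamp w (words_length p hp).1 (words_length p hp).2.2
  have hnn := manhattan_nonneg w (pt (clampList w))
  rw [leafOK, Bool.or_eq_true, Bool.and_eq_true, List.any_eq_true, List.any_eq_true,
    List.any_eq_true] at h1
  simp only [List.map_map, List.mem_map, Function.comp, decide_eq_true_eq, beq_iff_eq,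
    zero_add] at h1
  rcases h1 with ⟨d, ⟨p, hp, rfl⟩, hd⟩ | ⟨⟨d, ⟨p, hp, rfl⟩, hd⟩, ⟨e, ⟨q, hq, rfl⟩, he⟩⟩
  · have := h p hp
    rw [h2 p hp] at this
    omega
  · have h3 := h q hq
    rw [h2 q hq, he] at h3
    have h4 : manhattan w (pt (clampList w)) = 0 := by push_cast at h3; omega
    refine ⟨p, hp, eq_of_manhattan ?_⟩
    rw [h2 p hp, h4, hd]; rfl

/-! ### The cube -/

/-- The vertices of the 10-cube. -/
def cubeFin : Finset (Fin 10 → ℤ) := Fintype.piFinset fun _ => {0, 1}

theorem mem_cubeFin {x : Fin 10 → ℤ} : x ∈ cubeFin ↔ x ∈ cube 10 := by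
  unfold cubeFin cube
  rw [Fintype.mem_piFinset]
  simp

theorem card_cubeFin : cubeFin.card = 1024 := by
  unfold cubeFin
  rw [Fintype.card_piFinset]
  simp

/-- The opposite vertex. -/
def opp (s : Fin 10 → ℤ) : Fin 10 → ℤ := fun i => 1 - s i

theorem far_points {s w : Fin 10 → ℤ} (hs : s ∈ cube 10) (hw : w ∈ cube 10)
    (h : ¬ manhattan w s ≤ 8) : w = opp s ∨ ∃ i, w = Function.update (opp s) i (s i) := by
  have h1 : ∀ i, |w i - s i| = if w i = s i then 0 else 1 := by
    intro i
    rcases hs i with h1 | h1 <;> rcases hw i with h2 | h2 <;> rw [h1, h2] <;> norm_num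
  have h2 : manhattan w s = 10 - ((univ.filter fun i => w i = s i).card : ℤ) := by
    unfold manhattan
    rw [Finset.sum_congr rfl fun i _ => h1 i]
    have h3 : ∀ i : Fin 10, (if w i = s i then (0 : ℤ) else 1) =
        1 - (if w i = s i then (1 : ℤ) else 0) := by
      intro i; split_ifs <;> norm_num
    rw [Finset.sum_congr rfl fun i _ => h3 i, Finset.sum_sub_distrib]
    simp
  have h4 : (univ.filter fun i => w i = s i).card ≤ 1 := by
    by_contra hcon
    push Not at hcon
    apply h
    rw [h2]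
    have : (2 : ℤ) ≤ ((univ.filter fun i => w i = s i).card : ℤ) := by exact_mod_cast hcon
    omega
  have hopp : ∀ i, w i ≠ s i → w i = opp s i := by
    intro i hi
    unfold opp
    have ha := hs i
    have hb := hw i
    omega
  rcases Nat.lt_or_ge (univ.filter fun i => w i = s i).card 1 with h5 | h5
  · left
    have h6 : (univ.filter fun i => w i = s i) = ∅ := by rw [← Finset.card_eq_zero]; omega
    funext i
    apply hopp
    intro hi
    have : i ∈ (univ.filter fun i => w i = s i) := by simp [hi]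
    rw [h6] at this
    simp at this
  · right
    have h6 : (univ.filter fun i => w i = s i).card = 1 := le_antisymm h4 h5
    rw [Finset.card_eq_one] at h6
    obtain ⟨i, hi⟩ := h6
    refine ⟨i, ?_⟩
    funext j
    by_cases hj : j = i
    · subst hj
      rw [Function.update_self]
      have : j ∈ (univ.filter fun i => w i = s i) := by rw [hi]; simp
      simpa using this
    · rw [Function.update_of_ne hj]
      apply hopp
      intro hj2
      have : j ∈ (univ.filter fun i => w i = s i) := by simp [hj2]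
      rw [hi, Finset.mem_singleton] at this
      exact hj this

open Classical in
theorem common (S : Finset (Fin 10 → ℤ)) (hS : S ⊆ cubeFin) (hc : S.card ≤ 2 * (15 + 1)) :
    ∃ w ∈ cubeFin, w ∉ S ∧ ∀ s ∈ S, manhattan w s ≤ 8 := by
  by_contra hcon
  push Not at hcon
  set bad : (Fin 10 → ℤ) → Finset (Fin 10 → ℤ) := fun s =>
    insert s (insert (opp s) (univ.image fun i : Fin 10 => Function.update (opp s) i (s i)))
    with hbad
  have h1 : ∀ s, (bad s).card ≤ 12 := by
    intro s
    rw [hbad]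
    refine (Finset.card_insert_le _ _).trans ?_
    have h2 := Finset.card_insert_le (opp s)
      (univ.image fun i : Fin 10 => Function.update (opp s) i (s i))
    have h3 := Finset.card_image_le (s := (univ : Finset (Fin 10)))
      (f := fun i : Fin 10 => Function.update (opp s) i (s i))
    rw [Finset.card_univ, Fintype.card_fin] at h3
    omega
  have h2 : cubeFin ⊆ S.biUnion bad := by
    intro w hw
    rw [Finset.mem_biUnion]
    by_cases hwS : w ∈ S
    · exact ⟨w, hwS, by rw [hbad]; exact Finset.mem_insert_self _ _⟩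
    · obtain ⟨s, hs, hlt⟩ := hcon w hw hwS
      refine ⟨s, hs, ?_⟩
      rw [hbad]
      rcases far_points (mem_cubeFin.1 (hS hs)) (mem_cubeFin.1 hw) (not_le.2 hlt) with h | ⟨i, h⟩
      · rw [h]; simp
      · refine Finset.mem_insert_of_mem (Finset.mem_insert_of_mem ?_)
        rw [Finset.mem_image]
        exact ⟨i, mem_univ i, h.symm⟩
  have h3 := (Finset.card_le_card h2).trans Finset.card_biUnion_le
  have h4 : ∑ s ∈ S, (bad s).card ≤ S.card * 12 := by
    refine (Finset.sum_le_sum fun s _ => h1 s).trans ?_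
    rw [Finset.sum_const, smul_eq_mul]
  rw [card_cubeFin] at h3
  omega

/-! ### The two halves for an arbitrary linear order of the vertices -/

theorem lattice_part (o : LinearOrder (Fin 10 → ℤ)) :
    Nontrivial (@ReducedHomology _ o (VietorisRips (Set.univ : Set (Fin 10 → ℤ)) 8) 15) := by
  have hcast : ∀ x y : Fin 10 → ℤ, ((manhattan x y : ℝ) ≤ 8 ↔ manhattan x y ≤ 8) := by
    intro x y
    rw [show (8 : ℝ) = ((8 : ℤ) : ℝ) by norm_num, Int.cast_le]
  refine @nontrivial_of_cross _ o _ 15 Set.univ (fun x y => manhattan x y ≤ 8) ?_ ?_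
    (words.map fun p => (pt p.1, pt p.2)) ?_ ?_ ?_ ?_ ?_
  · intro x y h; rw [manhattan_comm]; exact h
  · intro τ hne _ h
    refine ⟨hne, fun x _ => Set.mem_univ x, ?_⟩
    intro x hx y hy
    rw [hcast]
    by_cases hxy : x = y
    · subst hxy; rw [manhattan_self]; norm_num
    · exact h x hx y hy hxy
  · rw [List.length_map]; rfl
  · rw [List.pairwise_map]
    refine List.Pairwise.imp_of_mem ?_ words_pairwise
    rintro p q hp hq ⟨⟨⟨h1, h1'⟩, h2, h2'⟩, ⟨h3, h3'⟩, h4, h4'⟩
    have hp' := words_length p hp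
    have hq' := words_length q hq
    refine ⟨⟨?_, ?_, ?_, ?_⟩, pt_ne hp'.1 hq'.1 h1, pt_ne hp'.1 hq'.2.1 h2,
      pt_ne hp'.2.1 hq'.1 h3, pt_ne hp'.2.1 hq'.2.1 h4⟩
    · show manhattan (pt p.1) (pt q.1) ≤ 8
      rw [manhattan_pt hp'.1 hq'.1]; exact_mod_cast h1'
    · show manhattan (pt p.1) (pt q.2) ≤ 8
      rw [manhattan_pt hp'.1 hq'.2.1]; exact_mod_cast h2'
    · show manhattan (pt p.2) (pt q.1) ≤ 8
      rw [manhattan_pt hp'.2.1 hq'.1]; exact_mod_cast h3'
    · show manhattan (pt p.2) (pt q.2) ≤ 8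
      rw [manhattan_pt hp'.2.1 hq'.2.1]; exact_mod_cast h4'
  · intro p _; exact ⟨Set.mem_univ _, Set.mem_univ _⟩
  · intro p hp
    rw [List.mem_map] at hp
    obtain ⟨q, hq, rfl⟩ := hp
    have hq' := words_length q hq
    exact pt_ne hq'.1 hq'.2.1 (words_opp q hq)
  · intro τ hτ hsub x hx
    obtain ⟨p, hp, hxp⟩ := maximal x (fun p hp => by
      rw [← hcast]
      exact hτ.2.2 x hx _ (hsub _ (List.mem_map.2 ⟨p, hp, rfl⟩)))
    exact ⟨_, List.mem_map.2 ⟨p, hp, rfl⟩, hxp⟩

theorem cube_part (o : LinearOrder (Fin 10 → ℤ)) :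
    Subsingleton (@ReducedHomology _ o (VietorisRips (cube 10) 8) 15) := by
  have hcast : ∀ x y : Fin 10 → ℤ, ((manhattan x y : ℝ) ≤ 8 ↔ manhattan x y ≤ 8) := by
    intro x y
    rw [show (8 : ℝ) = ((8 : ℤ) : ℝ) by norm_num, Int.cast_le]
  refine @subsingleton_of_common _ o _ 15 cubeFin (fun x y => manhattan x y ≤ 8) ?_ ?_ common
  · intro x y h; rw [manhattan_comm]; exact h
  · intro τ
    constructor
    · rintro ⟨h1, h2, h3⟩
      refine ⟨h1, fun x hx => mem_cubeFin.2 (h2 x hx), ?_⟩
      intro x hx y hy _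
      rw [← hcast]; exact h3 x hx y hy
    · rintro ⟨h1, h2, h3⟩
      refine ⟨h1, fun x hx => mem_cubeFin.1 (h2 hx), ?_⟩
      intro x hx y hy
      rw [hcast]
      by_cases hxy : x = y
      · subst hxy; rw [manhattan_self]; norm_num
      · exact h3 x hx y hy hxy

/-- **Disproof of Q1.** In degree 15, the reduced integral homology of the Vietoris-Rips complex
at scale 8 is nonzero for `ℤ^10` and zero for the cube `{0,1}^10` (Manhattan metric). -/
theorem result : ∀ o : LinearOrder (Fin 10 → ℤ),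
    Nontrivial (@ReducedHomology _ o (VietorisRips (Set.univ : Set (Fin 10 → ℤ)) 8) 15) ∧
    Subsingleton (@ReducedHomology _ o (VietorisRips (cube 10) 8) 15) :=
  fun o => ⟨lattice_part o, cube_part o⟩

end Pool.Agent.Results.MP_cf6741_gt.LatticeVersusCube
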